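import Pool.Agent.TH477.RB.Exact2
import Pool.Agent.TH596.J4
import Pool.Agent.TH596.J4b

/-!
The threshold `r_0(k)` of the rainbow Erdős–Rothschild problem for complete graphs, for every
`k ≥ 4`.
-/

set_option autoImplicit false

namespace Pool.Agent.Results.MP_ba6833_co.RainbowThreshold

/-- The vertex set `S` spans a rainbow copy of the complete graph on `k` vertices in the edge
colouring `c` of `G`: it is a clique with `k` vertices and its edges have pairwise different
colours. -/
def RainbowClique {V : Type} {r : ℕ} (k : ℕ) (G : SimpleGraph V) (c : G.edgeSet → Fin r)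
    (S : Finset V) : Prop :=
  G.IsNClique k S ∧ ∀ e f : G.edgeSet, (∀ v ∈ (e : Sym2 V), v ∈ S) →
    (∀ v ∈ (f : Sym2 V), v ∈ S) → c e = c f → e = f

/-- The number of `r`-edge-colourings of `G` without a rainbow copy of the complete graph on `k`
vertices. -/
noncomputable def numColourings {V : Type} (r k : ℕ) (G : SimpleGraph V) : ℕ :=
  Nat.card {c : G.edgeSet → Fin r // ∀ S : Finset V, ¬ RainbowClique k G c S}

/-- `G` has the largest number of these colourings among all graphs on `n` vertices. -/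
def Extremal {n : ℕ} (r k : ℕ) (G : SimpleGraph (Fin n)) : Prop :=
  ∀ H : SimpleGraph (Fin n), numColourings r k H ≤ numColourings r k G

/-- For all large `n` the Turán graph with `k - 1` parts is, up to isomorphism, the unique
extremal graph on `n` vertices. -/
def TuranUnique (r k : ℕ) : Prop :=
  ∃ n0 : ℕ, ∀ n : ℕ, n0 ≤ n → ∀ G : SimpleGraph (Fin n),
    (Extremal r k G ↔ Nonempty (G ≃g SimpleGraph.turanGraph n (k - 1)))

open Pool.Agent.TH477.RB in
theorem num_eq {V : Type} (r k : ℕ) (G : SimpleGraph V) : numColourings r k G = cc r k G := by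
  unfold numColourings cc
  apply Nat.card_congr
  apply Equiv.subtypeEquivRight
  intro c
  constructor
  · intro h S hS
    have h1 := h S
    unfold RainbowClique at h1
    by_contra hcon
    apply h1
    refine ⟨hS, fun e f he hf hef => ?_⟩
    by_contra hne
    exact hcon ⟨e, f, hne, he, hf, hef⟩
  · intro h S hS
    obtain ⟨e, f, hne, he, hf, hef⟩ := h S hS.1
    exact hne (hS.2 e f he hf hef)

/-- comparison of real powers with rational exponent -/
theorem le_rpow_iff (a b p q : ℕ) (hq : 0 < q) (x : ℝ) (hx : x = (p : ℝ) / q) :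
    (a : ℝ) ≤ (b : ℝ) ^ x ↔ a ^ q ≤ b ^ p := by
  have hq0 : (q : ℝ) ≠ 0 := by exact_mod_cast hq.ne'
  have h1 : ((b : ℝ) ^ x) ^ q = (b : ℝ) ^ p := by
    rw [← Real.rpow_natCast, ← Real.rpow_mul (by positivity), hx, div_mul_cancel₀ _ hq0,
      Real.rpow_natCast]
  constructor
  · intro h
    have h2 := pow_le_pow_left₀ (by positivity) h q
    rw [h1] at h2
    exact_mod_cast h2
  · intro h
    have h2 : (a : ℝ) ^ q ≤ ((b : ℝ) ^ x) ^ q := by
      rw [h1]; exact_mod_cast h
    exact (pow_le_pow_iff_left₀ (by positivity) (by positivity) hq.ne').mp h2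

/-- the threshold -/
theorem threshold_le_iff (k r : ℕ) (hk : 4 ≤ k) :
    max ⌊((k.choose 2 : ℝ) - 1) ^ (((k : ℝ) - 1) / ((k : ℝ) - 2))⌋₊
      ⌊(3 : ℝ) ^ (((k : ℝ) - 1) / 3)⌋₊ + 1 ≤ r ↔
    (k.choose 2 - 1) ^ (k - 1) < r ^ (k - 2) ∧ 3 ^ (k - 1) < r ^ 3 := by
  have hc : 1 ≤ k.choose 2 := by
    have : (4).choose 2 ≤ k.choose 2 := Nat.choose_le_choose 2 hk
    have h6 : (4).choose 2 = 6 := by decide
    omega
  have e1 : ((k.choose 2 : ℝ) - 1) = ((k.choose 2 - 1 : ℕ) : ℝ) := by
    rw [Nat.cast_sub hc]; simp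
  have e2 : ((k : ℝ) - 1) / ((k : ℝ) - 2) = ((k - 1 : ℕ) : ℝ) / ((k - 2 : ℕ) : ℝ) := by
    rw [Nat.cast_sub (by omega : 1 ≤ k), Nat.cast_sub (by omega : 2 ≤ k)]; simp
  have e3 : ((k : ℝ) - 1) / 3 = ((k - 1 : ℕ) : ℝ) / ((3 : ℕ) : ℝ) := by
    rw [Nat.cast_sub (by omega : 1 ≤ k)]; simp
  have e4 : (3 : ℝ) = ((3 : ℕ) : ℝ) := by norm_num
  have h1 : ∀ a : ℕ, a ≤ ⌊((k.choose 2 : ℝ) - 1) ^ (((k : ℝ) - 1) / ((k : ℝ) - 2))⌋₊ ↔
      a ^ (k - 2) ≤ (k.choose 2 - 1) ^ (k - 1) := by
    intro a
    rw [Nat.le_floor_iff (by rw [e1]; positivity), e1]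
    exact le_rpow_iff a _ (k - 1) (k - 2) (by omega) _ e2
  have h2 : ∀ a : ℕ, a ≤ ⌊(3 : ℝ) ^ (((k : ℝ) - 1) / 3)⌋₊ ↔ a ^ 3 ≤ 3 ^ (k - 1) := by
    intro a
    rw [Nat.le_floor_iff (by positivity)]
    have := le_rpow_iff a 3 (k - 1) 3 (by omega) _ e3
    rw [← e4] at this
    exact this
  rw [Nat.succ_le_iff, max_lt_iff, ← not_le, ← not_le, h1, h2, not_le, not_le]

/-- For every `k ≥ 4` the least integer `r_0` such that for every `r ≥ r_0` the Turán graph with
`k - 1` parts is for all large `n` the unique graph on `n` vertices with the largest number of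
`r`-edge-colourings without rainbow complete graph on `k` vertices. The second part says that for
no smaller number of colours `r ≥ 2` this uniqueness holds. -/
theorem result (k : ℕ) (hk : 4 ≤ k) :
    IsLeast {r0 : ℕ | ∀ r : ℕ, 2 ≤ r → r0 ≤ r → TuranUnique r k}
      (max ⌊((k.choose 2 : ℝ) - 1) ^ (((k : ℝ) - 1) / ((k : ℝ) - 2))⌋₊
        ⌊(3 : ℝ) ^ (((k : ℝ) - 1) / 3)⌋₊ + 1) ∧
    ∀ r : ℕ, 2 ≤ r → (TuranUnique r k ↔
      max ⌊((k.choose 2 : ℝ) - 1) ^ (((k : ℝ) - 1) / ((k : ℝ) - 2))⌋₊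
        ⌊(3 : ℝ) ^ (((k : ℝ) - 1) / 3)⌋₊ + 1 ≤ r) := by
  have hc6 : 6 ≤ k.choose 2 := by
    have : (4).choose 2 ≤ k.choose 2 := Nat.choose_le_choose 2 hk
    have h6 : (4).choose 2 = 6 := by decide
    omega
  have key : ∀ r : ℕ, 2 ≤ r → (TuranUnique r k ↔
      max ⌊((k.choose 2 : ℝ) - 1) ^ (((k : ℝ) - 1) / ((k : ℝ) - 2))⌋₊
        ⌊(3 : ℝ) ^ (((k : ℝ) - 1) / 3)⌋₊ + 1 ≤ r) := by
    intro r hr2
    rw [threshold_le_iff k r hk]
    constructor
    · intro hU
      -- lower bound constructions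
      have hlow : ∀ n0 : ℕ, ¬ ((k.choose 2 - 1) ^ (k - 1) < r ^ (k - 2) ∧
          3 ^ (k - 1) < r ^ 3) → ∃ n ≥ n0,
          Pool.Agent.TH477.RB.cc r k (SimpleGraph.turanGraph n (k - 1)) ≤
            Pool.Agent.TH477.RB.cc r k (⊤ : SimpleGraph (Fin n)) := by
        intro n0 hnot
        by_cases h1 : r ^ (k - 2) ≤ (k.choose 2 - 1) ^ (k - 1)
        · exact Pool.Agent.TH596.J4.low1 k r hk hr2 h1 n0
        · have h2 : r ^ 3 ≤ 3 ^ (k - 1) := by
            by_contra h3
            exact hnot ⟨not_le.mp h1, not_le.mp h3⟩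
          have hrk : k.choose 2 ≤ r := by
            by_contra hlt
            apply h1
            have hQ : r ≤ k.choose 2 - 1 := by omega
            exact (Nat.pow_le_pow_left hQ _).trans
              (Nat.pow_le_pow_right (by omega) (by omega))
          exact Pool.Agent.TH596.J4.low2 k r hk hrk h2 n0
      by_contra hnot
      obtain ⟨n0, hn0⟩ := hU
      obtain ⟨n, hn, hle⟩ := hlow (n0 + k) hnot
      have hT := (hn0 n (by omega) (SimpleGraph.turanGraph n (k - 1))).mpr ⟨RelIso.refl _⟩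
      have hK : Extremal r k (⊤ : SimpleGraph (Fin n)) := by
        intro H
        refine (hT H).trans ?_
        rw [num_eq, num_eq]
        exact hle
      obtain ⟨φ⟩ := (hn0 n (by omega) ⊤).mp hK
      -- the Turán graph is not complete for large `n`
      have hadj : ∀ x y : Fin n, x ≠ y → (SimpleGraph.turanGraph n (k - 1)).Adj x y := by
        intro x y hxy
        have h1 : (⊤ : SimpleGraph (Fin n)).Adj (φ.symm x) (φ.symm y) := by
          rw [SimpleGraph.top_adj]
          intro h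
          exact hxy (φ.symm.injective h)
        have h2 := φ.map_rel_iff.mpr h1
        simpa using h2
      have h0n : 0 < n := by omega
      have h1n : k - 1 < n := by omega
      have h2 := hadj ⟨0, h0n⟩ ⟨k - 1, h1n⟩ (by
        intro h
        have := congrArg Fin.val h
        simp only at this
        omega)
      rw [SimpleGraph.turanGraph_adj] at h2
      apply h2
      simp
    · rintro ⟨h1, h2⟩
      obtain ⟨n0, hn0⟩ := Pool.Agent.TH477.RB.turan_unique k r hk h1 h2
      refine ⟨n0, fun n hn G => ?_⟩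
      rw [← hn0 n hn G]
      unfold Extremal
      constructor
      · intro h H
        have := h H
        rwa [num_eq, num_eq] at this
      · intro h H
        rw [num_eq, num_eq]
        exact h H
  refine ⟨⟨?_, ?_⟩, key⟩
  · intro r hr2 hr
    exact (key r hr2).mpr hr
  · intro r0 hr0
    by_contra hlt
    push Not at hlt
    -- the number of colours just below the threshold
    set v := max ⌊((k.choose 2 : ℝ) - 1) ^ (((k : ℝ) - 1) / ((k : ℝ) - 2))⌋₊
        ⌊(3 : ℝ) ^ (((k : ℝ) - 1) / 3)⌋₊ with hv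
    have hv2 : 2 ≤ v := by
      by_contra hv2
      have h3 : v + 1 ≤ 2 := by omega
      have h4 := (threshold_le_iff k 2 hk).mp h3
      have h5 : 2 ^ (k - 2) ≤ (k.choose 2 - 1) ^ (k - 1) :=
        (Nat.pow_le_pow_left (by omega) _).trans (Nat.pow_le_pow_right (by omega) (by omega))
      omega
    have h6 := (key v hv2).mp (hr0 v hv2 (by omega))
    omega

end Pool.Agent.Results.MP_ba6833_co.RainbowThreshold
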